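import Pool.Agent.H29.Tail6

open Set Filter Topology

namespace Pool.Agent.Results.MP_ddf116_an.Counter

/-- `V` locates the operator with graph `T`: every pair `(x, f)` with `x ∈ V` that is monotonically
related to the restriction of `T` to `V` has `x` in the domain of `T`. -/
def Locates {X : Type} [NormedAddCommGroup X] [NormedSpace ℝ X] (V : Set X)
    (T : Set (X × (X →L[ℝ] ℝ))) : Prop :=
  ∀ x ∈ V, ∀ f : X →L[ℝ] ℝ, (∀ p ∈ T, p.1 ∈ V → 0 ≤ (f - p.2) (x - p.1)) → ∃ g, (x, g) ∈ T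

/-- There are a real Banach space, a monotone operator `T` and an open convex set `V` meeting the
domain of `T` such that the closure of `V` locates `T` but `V` does not. -/
theorem result :
    ∃ (X : Type) (_ : NormedAddCommGroup X) (_ : NormedSpace ℝ X) (_ : CompleteSpace X)
      (T : Set (X × (X →L[ℝ] ℝ))) (V : Set X),
      (∀ p ∈ T, ∀ q ∈ T, 0 ≤ (p.2 - q.2) (p.1 - q.1)) ∧ IsOpen V ∧ Convex ℝ V ∧
      (∃ p ∈ T, p.1 ∈ V) ∧ Locates (closure V) T ∧ ¬ Locates V T := by
  obtain ⟨A, φ, mo, mx, -, nn, ⟨q, f, h1, h2⟩, p, g, h3, h4, h5⟩ := H29.Tail.conv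
  refine ⟨_, _, _, inferInstance, {z | z.2 ∈ A z.1}, {p | 0 < φ p},
    fun p hp q hq => mo _ _ _ _ hp hq, isOpen_lt continuous_const φ.continuous,
    convex_halfSpace_gt φ.toLinearMap.isLinear _, ⟨(q, f), h1, h2⟩,
    fun x _ a ha => ⟨a, mx x a fun y b hb => ha (y, b) hb ?_⟩, fun h => ?_⟩
  · refine mem_closure_of_tendsto (f := fun t : ℝ => y + t • q) (b := 𝓝[>] 0) ?_ ?_
    · refine Tendsto.mono_left ?_ nhdsWithin_le_nhds
      exact (by fun_prop : Continuous fun t : ℝ => y + t • q).tendsto' _ _ (by simp)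
    · filter_upwards [self_mem_nhdsWithin] with t ht
      show 0 < φ (y + t • q)
      rw [map_add, map_smul]
      exact add_pos_of_nonneg_of_pos (nn y b hb) (mul_pos ht h2)
  · obtain ⟨a, ha⟩ := h p h3 g fun z hz hv => h4 _ _ hv hz
    exact h5 a ha

end Pool.Agent.Results.MP_ddf116_an.Counter
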